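import Pool.Agent.Lib.MP_ca0971_gt.OT.TopDefs
import Pool.Agent.Lib.MP_ca0971_gt.OT.Ang

/-!
# Project OT, Lnk: the linking number as a count of crossings
-/

set_option autoImplicit false

namespace Pool.Agent.Lib.MP_ca0971_gt.OT

open Finset Filter Topology

/-- Signed crossing of the segment a a' with b b' in the projection, counted if a a' is over. -/
noncomputable def crS (a a' b b' : E) : ℝ :=
  if dt (a'.1 - a.1) (b'.1 - b.1) ≠ 0 ∧
      0 < dt (b.1 - a.1) (b'.1 - b.1) / dt (a'.1 - a.1) (b'.1 - b.1) ∧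
      dt (b.1 - a.1) (b'.1 - b.1) / dt (a'.1 - a.1) (b'.1 - b.1) < 1 ∧
      0 < dt (a.1 - b.1) (a'.1 - a.1) / dt (b'.1 - b.1) (a'.1 - a.1) ∧
      dt (a.1 - b.1) (a'.1 - a.1) / dt (b'.1 - b.1) (a'.1 - a.1) < 1 ∧
      b.2 + dt (a.1 - b.1) (a'.1 - a.1) / dt (b'.1 - b.1) (a'.1 - a.1) * (b'.2 - b.2) <
        a.2 + dt (b.1 - a.1) (b'.1 - b.1) / dt (a'.1 - a.1) (b'.1 - b.1) * (a'.2 - a.2)
  then sg1 (dt (a'.1 - a.1) (b'.1 - b.1)) else 0

/-- Crossings of the closed polygon Q over the closed polygon P. -/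
noncomputable def lkO (Q P : List E) : ℝ :=
  ((Q.zip (Q.rotate 1)).map fun f => ((P.zip (P.rotate 1)).map fun e => crS f.1 f.2 e.1 e.2).sum).sum

/-- Translation in the Z direction. -/
def sh (τ : ℝ) (x : E) : E := (x.1 + (τ : ℂ) * Complex.I, x.2)

/-- Crossings of the shifted polygon over the polygon. -/
noncomputable def lk2 {I : Type} [Fintype I] (σ : Equiv.Perm I) (v : I → E) (τ : ℝ) : ℝ :=
  ∑ i, ∑ j, crS (sh τ (v i)) (sh τ (v (σ i))) (v j) (v (σ j))

open Classical in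
/-- Number of X-minima. -/
noncomputable def cus {I : Type} [Fintype I] (σ : Equiv.Perm I) (v : I → E) : ℝ :=
  ((univ.filter fun i => (dd σ v i).re < 0 ∧ 0 < (dd σ v (σ i)).re).card : ℝ)

/-- The points of the polygon Q are on no line through two points of the family F, and the points of F
are on no line of an edge of Q (projection). -/
def GenT {W : Type} (F : W → E) (Q : List E) : Prop :=
  (∀ a ∈ Q, ∀ b c : W, b ≠ c → dt ((F c).1 - (F b).1) (a.1 - (F b).1) ≠ 0) ∧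
  (∀ f ∈ Q.zip (Q.rotate 1), ∀ x : W, dt (f.2.1 - f.1.1) ((F x).1 - f.1.1) ≠ 0)

end Pool.Agent.Lib.MP_ca0971_gt.OT
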