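import Pool.Agent.Lib.MP_ca0971_gt.OT.Lnk.ShiftA
import Pool.Agent.Lib.MP_ca0971_gt.OT.Loc.Sym

/-!
# Project OT, Lnk: the shifted front: lk2 = w - cus

Pairs (i, j), i in the shifted polygon, small τ > 0 (dt d_i I = re d_i, so shifting changes the parameters
by O(τ)); m = slope, hs = slope of the height (slo, hsl):
* i = j: parallel, dt = 0.
* not adjacent: if Crs i j the crossing persists with the same sign and order of heights (Gen.hgt); if
  not, the projected closed segments are disjoint (Gen.ver) and stay so.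
* j = σ i or i = σ j, common vertex x: the lines meet at the horizontal distance u = τ / (m_j - m_i) from
  x. Same X-direction: no crossing. X-minimum at x: crossing iff m_j > m_i (u > 0), then by cmin
  hs_i > hs_j, the shifted edge i is over, sign -1 (dt d_i d_j = re d_i re d_j (m_j - m_i) < 0).
  X-maximum: crossing iff m_j < m_i (u < 0), then by cmax hs_i > hs_j, so i is under: not counted.
So every X-minimum gives exactly one -1 (from (i, σ i) or from (σ i, i)).
-/

set_option autoImplicit false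

namespace Pool.Agent.Lib.MP_ca0971_gt.OT

open Finset Filter Topology


variable {I : Type} [Fintype I] [DecidableEq I] {σ : Equiv.Perm I}

omit [Fintype I] [DecidableEq I] in
/-- Eventual statements at `0+`. -/
theorem shift_ex {p : ℝ → Prop} (h : ∀ᶠ τ in 𝓝[>] (0 : ℝ), p τ) :
    ∃ τ0 : ℝ, 0 < τ0 ∧ ∀ τ, 0 < τ → τ < τ0 → p τ := by
  obtain ⟨u, hu, hs⟩ := mem_nhdsGT_iff_exists_Ioo_subset.1 h
  exact ⟨u, hu, fun τ h1 h2 => hs ⟨h1, h2⟩⟩

/-- Nonadjacent pairs. -/
theorem shift_far {v : I → E} (hG : Gen σ v) {i j : I} (h : ¬ Adj σ i j) :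
    ∃ τ0 : ℝ, 0 < τ0 ∧ ∀ τ, 0 < τ → τ < τ0 →
      crS (sh τ (v i)) (sh τ (v (σ i))) (v j) (v (σ j)) =
        if (i, j) ∈ (dia σ v).C then sg1 (dt (dd σ v i) (dd σ v j)) else 0 := by
  exact shift_ex (shift_far_ev hG h)

/-- The two pairs at a vertex. -/
theorem shift_near {v : I → E} (hG : Gen σ v) (hF : Frt σ v) (i : I) :
    ∃ τ0 : ℝ, 0 < τ0 ∧ ∀ τ, 0 < τ → τ < τ0 →
      crS (sh τ (v i)) (sh τ (v (σ i))) (v (σ i)) (v (σ (σ i))) +
        crS (sh τ (v (σ i))) (sh τ (v (σ (σ i)))) (v i) (v (σ i)) =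
      if (dd σ v i).re < 0 ∧ 0 < (dd σ v (σ i)).re then -1 else 0 := by
  exact shift_ex (shift_near_ev hF i)

omit [Fintype I] [DecidableEq I] in
/-- No fixed points. -/
theorem shift_ne1 {v : I → E} (hF : Frt σ v) (i : I) : σ i ≠ i := by
  intro h
  apply hF.nv i
  unfold dd
  rw [h]
  simp

omit [Fintype I] [DecidableEq I] in
/-- No 2-cycles. -/
theorem shift_ne2 {v : I → E} (hG : Gen σ v) (hF : Frt σ v) (i : I) : σ (σ i) ≠ i := by
  intro h
  have h1 := hG.slit i
  have h0 : dd σ v i ≠ 0 := by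
    intro h0
    apply hF.nv i
    rw [h0]
    rfl
  have h2 : dd σ v (σ i) = - dd σ v i := by
    unfold dd
    rw [h]
    ring
  rw [h2, neg_div, div_self h0, Complex.mem_slitPlane_iff] at h1
  rcases h1 with h1 | h1
  · simp at h1
    linarith
  · simp at h1

/-- Combinatorics of the sum. -/
theorem shift_sum {v : I → E} (hG : Gen σ v) (hF : Frt σ v) (F G : I → I → ℝ)
    (h0 : ∀ i, F i i = 0) (hA : ∀ i j, Adj σ i j → G i j = 0) (hN : ∀ i j, ¬ Adj σ i j → F i j = G i j) :
    ∑ i, ∑ j, F i j = ∑ i, ∑ j, G i j + ∑ i, (F i (σ i) + F (σ i) i) := by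
  have key : ∀ i j, F i j =
      G i j + ((if j = σ i then F i j else 0) + (if i = σ j then F i j else 0)) := by
    intro i j
    by_cases h1 : i = j
    · subst h1
      rw [h0, hA i i (Or.inl rfl)]
      simp
    by_cases h2 : j = σ i
    · subst h2
      rw [hA _ _ (Or.inr (Or.inl rfl)), if_pos rfl, if_neg (fun k => shift_ne2 hG hF i k.symm)]
      ring
    by_cases h3 : i = σ j
    · rw [hA _ _ (Or.inr (Or.inr h3)), if_neg h2, if_pos h3]
      ring
    · rw [hN i j (fun k => k.elim h1 (fun k => k.elim h2 h3)), if_neg h2, if_neg h3]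
      ring
  have e1 : ∑ i, ∑ j, (if j = σ i then F i j else 0) = ∑ i, F i (σ i) := by
    refine Finset.sum_congr rfl fun i _ => ?_
    rw [Finset.sum_ite_eq' univ (σ i) (fun j => F i j), if_pos (mem_univ _)]
  have e2 : ∑ i, ∑ j, (if i = σ j then F i j else 0) = ∑ j, F (σ j) j := by
    rw [Finset.sum_comm]
    refine Finset.sum_congr rfl fun j _ => ?_
    rw [Finset.sum_ite_eq' univ (σ j) (fun i => F i j), if_pos (mem_univ _)]
  rw [Finset.sum_add_distrib (f := fun i => F i (σ i)), ← e1, ← e2, ← Finset.sum_add_distrib,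
    ← Finset.sum_add_distrib]
  refine Finset.sum_congr rfl fun i _ => ?_
  rw [← Finset.sum_add_distrib, ← Finset.sum_add_distrib]
  exact Finset.sum_congr rfl fun j _ => key i j

theorem lk2_eq {v : I → E} (hG : Gen σ v) (hF : Frt σ v) :
    ∃ τ0 : ℝ, 0 < τ0 ∧ ∀ τ, 0 < τ → τ < τ0 → lk2 σ v τ = (dia σ v).w - cus σ v := by
  apply shift_ex
  have a1 : ∀ᶠ τ in 𝓝[>] (0 : ℝ), ∀ i j, ¬ Adj σ i j →
      crS (sh τ (v i)) (sh τ (v (σ i))) (v j) (v (σ j)) =
        if (i, j) ∈ (dia σ v).C then sg1 (dt (dd σ v i) (dd σ v j)) else 0 := by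
    rw [eventually_all]
    intro i
    rw [eventually_all]
    intro j
    by_cases h : Adj σ i j
    · exact Eventually.of_forall fun τ k => (k h).elim
    · filter_upwards [shift_far_ev hG h] with τ h1 _
      exact h1
  have a2 : ∀ᶠ τ in 𝓝[>] (0 : ℝ), ∀ i,
      crS (sh τ (v i)) (sh τ (v (σ i))) (v (σ i)) (v (σ (σ i))) +
        crS (sh τ (v (σ i))) (sh τ (v (σ (σ i)))) (v i) (v (σ i)) =
      if (dd σ v i).re < 0 ∧ 0 < (dd σ v (σ i)).re then -1 else 0 := by
    rw [eventually_all]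
    exact fun i => shift_near_ev hF i
  filter_upwards [a1, a2] with τ h1 h2
  have hC : ∀ i j, (i, j) ∈ (dia σ v).C → ¬ Adj σ i j := by
    intro i j h
    have h' : Crs σ v i j ∧ ht σ v j i < ht σ v i j := by
      simpa [dia] using h
    exact h'.1.1
  have hs := shift_sum hG hF (fun i j => crS (sh τ (v i)) (sh τ (v (σ i))) (v j) (v (σ j)))
    (fun i j => if (i, j) ∈ (dia σ v).C then sg1 (dt (dd σ v i) (dd σ v j)) else 0)
    (fun i => by
      rw [shift_crS, if_neg]
      intro k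
      apply k.1
      unfold dt
      ring)
    (fun i j h => if_neg (fun k => hC i j k h)) h1
  unfold lk2
  rw [hs]
  have b1 : ∑ i, ∑ j, (if (i, j) ∈ (dia σ v).C then sg1 (dt (dd σ v i) (dd σ v j)) else 0) =
      (dia σ v).w := by
    rw [← Finset.sum_product' univ univ
      (fun i j => if (i, j) ∈ (dia σ v).C then sg1 (dt (dd σ v i) (dd σ v j)) else 0)]
    rw [Finset.univ_product_univ, Finset.sum_ite_mem, Finset.univ_inter]
    rfl
  have b2 : ∑ i, (crS (sh τ (v i)) (sh τ (v (σ i))) (v (σ i)) (v (σ (σ i))) +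
        crS (sh τ (v (σ i))) (sh τ (v (σ (σ i)))) (v i) (v (σ i))) = - cus σ v := by
    rw [Finset.sum_congr rfl (fun i _ => h2 i)]
    unfold cus
    rw [Finset.card_filter]
    push_cast
    rw [← Finset.sum_neg_distrib]
    refine Finset.sum_congr rfl fun i _ => ?_
    split_ifs <;> simp
  rw [b1, b2, sub_eq_add_neg]

end Pool.Agent.Lib.MP_ca0971_gt.OT
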