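import Pool.Agent.Lib.MP_ca0971_gt.OT.Lnk.Def
import Pool.Agent.Lib.MP_ca0971_gt.OT.Loc.Sym

/-!
# Project OT, Lnk: crossings of an edge with a shifted edge
-/

set_option autoImplicit false

namespace Pool.Agent.Lib.MP_ca0971_gt.OT

open Finset Filter Topology

variable {I : Type} {σ : Equiv.Perm I}

/-- The crossing of the shifted edge `i` with the edge `j` in terms of the parameters. -/
theorem shift_crS (v : I → E) (i j : I) (τ : ℝ) :
    crS (sh τ (v i)) (sh τ (v (σ i))) (v j) (v (σ j)) =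
      if dt (dd σ v i) (dd σ v j) ≠ 0 ∧
          0 < par σ v i j + τ * ((dd σ v j).re / dt (dd σ v i) (dd σ v j)) ∧
          par σ v i j + τ * ((dd σ v j).re / dt (dd σ v i) (dd σ v j)) < 1 ∧
          0 < par σ v j i + τ * ((dd σ v i).re / dt (dd σ v i) (dd σ v j)) ∧
          par σ v j i + τ * ((dd σ v i).re / dt (dd σ v i) (dd σ v j)) < 1 ∧
          (v j).2 + (par σ v j i + τ * ((dd σ v i).re / dt (dd σ v i) (dd σ v j))) * dh σ v j <
            (v i).2 + (par σ v i j + τ * ((dd σ v j).re / dt (dd σ v i) (dd σ v j))) * dh σ v i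
      then sg1 (dt (dd σ v i) (dd σ v j)) else 0 := by
  have e1 : (sh τ (v (σ i))).1 - (sh τ (v i)).1 = dd σ v i := by
    unfold sh dd
    simp only
    ring
  have e2 : (v (σ j)).1 - (v j).1 = dd σ v j := rfl
  have e3 : dt ((v j).1 - (sh τ (v i)).1) (dd σ v j) =
      dt ((v j).1 - (v i).1) (dd σ v j) + τ * (dd σ v j).re := by
    unfold sh dt
    simp only [Complex.sub_re, Complex.sub_im, Complex.add_re, Complex.add_im,
      Complex.re_ofReal_mul, Complex.im_ofReal_mul, Complex.I_re, Complex.I_im]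
    ring
  have e4 : dt ((sh τ (v i)).1 - (v j).1) (dd σ v i) =
      dt ((v i).1 - (v j).1) (dd σ v i) - τ * (dd σ v i).re := by
    unfold sh dt
    simp only [Complex.sub_re, Complex.sub_im, Complex.add_re, Complex.add_im,
      Complex.re_ofReal_mul, Complex.im_ofReal_mul, Complex.I_re, Complex.I_im]
    ring
  have e5 : (dt ((v j).1 - (v i).1) (dd σ v j) + τ * (dd σ v j).re) /
      dt (dd σ v i) (dd σ v j) = par σ v i j +
        τ * ((dd σ v j).re / dt (dd σ v i) (dd σ v j)) := by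
    unfold par
    rw [add_div, mul_div_assoc]
  have e6 : (dt ((v i).1 - (v j).1) (dd σ v i) - τ * (dd σ v i).re) /
      dt (dd σ v j) (dd σ v i) = par σ v j i +
        τ * ((dd σ v i).re / dt (dd σ v i) (dd σ v j)) := by
    unfold par
    rw [sub_div, dt_swap (dd σ v i) (dd σ v j), div_neg, mul_neg, mul_div_assoc, ← sub_eq_add_neg]
  have e7 : (sh τ (v i)).2 = (v i).2 := rfl
  have e8 : (sh τ (v (σ i))).2 = (v (σ i)).2 := rfl
  unfold crS
  rw [e1, e2, e3, e4, e5, e6, e7, e8]
  rfl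

/-- An affine function of `τ` is continuous. -/
theorem shift_tend (A B : ℝ) : Tendsto (fun τ : ℝ => A + τ * B) (𝓝[>] 0) (𝓝 A) := by
  have h : Continuous fun τ : ℝ => A + τ * B := by fun_prop
  have h1 := h.tendsto 0
  simp only [zero_mul, add_zero] at h1
  exact h1.mono_left nhdsWithin_le_nhds

/-- Nonadjacent pairs, as an eventual statement. -/
theorem shift_far_ev [Fintype I] [DecidableEq I] {v : I → E} (hG : Gen σ v) {i j : I} (h : ¬ Adj σ i j) :
    ∀ᶠ τ in 𝓝[>] (0 : ℝ), crS (sh τ (v i)) (sh τ (v (σ i))) (v j) (v (σ j)) =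
        if (i, j) ∈ (dia σ v).C then sg1 (dt (dd σ v i) (dd σ v j)) else 0 := by
  have hc : (i, j) ∈ (dia σ v).C ↔ Crs σ v i j ∧ ht σ v j i < ht σ v i j := by
    simp [dia]
  by_cases hD : dt (dd σ v i) (dd σ v j) = 0
  · refine Eventually.of_forall fun τ => ?_
    rw [shift_crS, if_neg (fun k => k.1 hD), if_neg (fun k => (hc.1 k).1.2.1 hD)]
  have tp := shift_tend (par σ v i j) ((dd σ v j).re / dt (dd σ v i) (dd σ v j))
  have tq := shift_tend (par σ v j i) ((dd σ v i).re / dt (dd σ v i) (dd σ v j))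
  by_cases hX : Crs σ v i j
  · obtain ⟨-, -, p0, p1, q0, q1⟩ := id hX
    have th : Tendsto (fun τ : ℝ => ((v i).2 + (par σ v i j +
        τ * ((dd σ v j).re / dt (dd σ v i) (dd σ v j))) * dh σ v i) -
        ((v j).2 + (par σ v j i + τ * ((dd σ v i).re / dt (dd σ v i) (dd σ v j))) * dh σ v j))
        (𝓝[>] 0) (𝓝 (ht σ v i j - ht σ v j i)) :=
      (tendsto_const_nhds.add (tp.mul_const _)).sub (tendsto_const_nhds.add (tq.mul_const _))
    rcases (hG.hgt i j hX).lt_or_gt with hh | hh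
    · filter_upwards [th.eventually (gt_mem_nhds (sub_neg.2 hh))] with τ h1
      rw [shift_crS, if_neg (fun k => ?_), if_neg (fun k => lt_asymm (hc.1 k).2 hh)]
      linarith [k.2.2.2.2.2]
    · filter_upwards [th.eventually (lt_mem_nhds (sub_pos.2 hh)), tp.eventually (lt_mem_nhds p0),
        tp.eventually (gt_mem_nhds p1), tq.eventually (lt_mem_nhds q0),
        tq.eventually (gt_mem_nhds q1)] with τ h1 h2 h3 h4 h5
      rw [shift_crS, if_pos ⟨hD, h2, h3, h4, h5, by linarith⟩, if_pos (hc.2 ⟨hX, hh⟩)]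
  · have hC : (i, j) ∉ (dia σ v).C := fun k => hX (hc.1 k).1
    rw [if_neg hC]
    have nij : i ≠ j := fun k => h (Or.inl k)
    have njs : j ≠ σ i := fun k => h (Or.inr (Or.inl k))
    have nis : i ≠ σ j := fun k => h (Or.inr (Or.inr k))
    have hm := mp_symm v hD
    have key : par σ v i j < 0 ∨ 1 < par σ v i j ∨ par σ v j i < 0 ∨ 1 < par σ v j i := by
      by_contra hcon
      push Not at hcon
      obtain ⟨k1, k2, k3, k4⟩ := hcon
      have seg : ∀ a : I, ∀ t : ℝ, 0 ≤ t → t ≤ 1 → (v a).1 + (t : ℂ) * dd σ v a ∈ sg σ v a := by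
        intro a t ht0 ht1
        unfold sg
        rw [segment_eq_image']
        refine ⟨t, ⟨ht0, ht1⟩, ?_⟩
        change (v a).1 + t • ((v (σ a)).1 - (v a).1) = _
        rw [Complex.real_smul]
        rfl
      have m1 : mp σ v i j ∈ sg σ v i := seg i _ k1 k2
      have m2 : mp σ v i j ∈ sg σ v j := by
        rw [hm]
        exact seg j _ k3 k4
      have z0 : ∀ a c : I, par σ v a c = 0 → mp σ v a c = (v a).1 := by
        intro a c hac
        unfold mp
        rw [hac]
        simp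
      have z1 : ∀ a c : I, par σ v a c = 1 → mp σ v a c = (v (σ a)).1 := by
        intro a c hac
        unfold mp dd
        rw [hac]
        simp
      apply hX
      refine ⟨h, hD, lt_of_le_of_ne k1 fun e => ?_, lt_of_le_of_ne k2 fun e => ?_,
        lt_of_le_of_ne k3 fun e => ?_, lt_of_le_of_ne k4 fun e => ?_⟩
      · rw [z0 i j e.symm] at m2
        exact hG.ver i j nij.symm nis.symm m2
      · rw [z1 i j e] at m2
        exact hG.ver (σ i) j njs (fun k => nij (σ.injective k).symm) m2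
      · rw [hm, z0 j i e.symm] at m1
        exact hG.ver j i nij njs.symm m1
      · rw [hm, z1 j i e] at m1
        exact hG.ver (σ j) i nis (fun k => nij (σ.injective k)) m1
    rcases key with k | k | k | k
    · filter_upwards [tp.eventually (gt_mem_nhds k)] with τ h1
      rw [shift_crS, if_neg]
      exact fun k' => lt_asymm k'.2.1 h1
    · filter_upwards [tp.eventually (lt_mem_nhds k)] with τ h1
      rw [shift_crS, if_neg]
      exact fun k' => lt_asymm k'.2.2.1 h1
    · filter_upwards [tq.eventually (gt_mem_nhds k)] with τ h1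
      rw [shift_crS, if_neg]
      exact fun k' => lt_asymm k'.2.2.2.1 h1
    · filter_upwards [tq.eventually (lt_mem_nhds k)] with τ h1
      rw [shift_crS, if_neg]
      exact fun k' => lt_asymm k'.2.2.2.2.1 h1

/-- The conditions at a common vertex, for small positive `τ`. -/
theorem near_iff1 (a b ki kj A : ℝ) : ∀ᶠ τ in 𝓝[>] (0 : ℝ),
    ((0 < 1 + τ * b ∧ 1 + τ * b < 1 ∧ 0 < 0 + τ * a ∧ 0 + τ * a < 1 ∧
      A + ki + (0 + τ * a) * kj < A + (1 + τ * b) * ki) ↔ (b < 0 ∧ 0 < a ∧ a * kj < b * ki)) := by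
  have t1 := (shift_tend 1 b).eventually (lt_mem_nhds one_pos)
  have t2 := (shift_tend 0 a).eventually (gt_mem_nhds one_pos)
  filter_upwards [self_mem_nhdsWithin, t1, t2] with τ h0 h1 h2
  have h0' : 0 < τ := h0
  have e1 : 1 + τ * b < 1 ↔ b < 0 := by
    constructor
    · intro h
      by_contra hc
      have := mul_nonneg h0'.le (not_lt.1 hc)
      linarith
    · intro h
      have := mul_neg_of_pos_of_neg h0' h
      linarith
  have e2 : 0 < 0 + τ * a ↔ 0 < a := by
    rw [zero_add]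
    exact mul_pos_iff_of_pos_left h0'
  have e3 : A + ki + (0 + τ * a) * kj < A + (1 + τ * b) * ki ↔ a * kj < b * ki := by
    rw [← sub_neg, ← sub_neg (a := a * kj)]
    have e4 : A + ki + (0 + τ * a) * kj - (A + (1 + τ * b) * ki) = τ * (a * kj - b * ki) := by ring
    rw [e4]
    constructor
    · intro h
      by_contra hc
      have := mul_nonneg h0'.le (not_lt.1 hc)
      linarith
    · exact fun h => mul_neg_of_pos_of_neg h0' h
  rw [e1, e2, e3]
  constructor
  · rintro ⟨-, k1, k2, -, k3⟩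
    exact ⟨k1, k2, k3⟩
  · rintro ⟨k1, k2, k3⟩
    exact ⟨h1, k1, k2, h2, k3⟩

/-- The conditions at a common vertex, the other pair. -/
theorem near_iff2 (a b ki kj A : ℝ) : ∀ᶠ τ in 𝓝[>] (0 : ℝ),
    ((0 < 0 + τ * a ∧ 0 + τ * a < 1 ∧ 0 < 1 + τ * b ∧ 1 + τ * b < 1 ∧
      A + (1 + τ * b) * ki < A + ki + (0 + τ * a) * kj) ↔ (b < 0 ∧ 0 < a ∧ b * ki < a * kj)) := by
  have t1 := (shift_tend 1 b).eventually (lt_mem_nhds one_pos)
  have t2 := (shift_tend 0 a).eventually (gt_mem_nhds one_pos)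
  filter_upwards [self_mem_nhdsWithin, t1, t2] with τ h0 h1 h2
  have h0' : 0 < τ := h0
  have e1 : 1 + τ * b < 1 ↔ b < 0 := by
    constructor
    · intro h
      by_contra hc
      have := mul_nonneg h0'.le (not_lt.1 hc)
      linarith
    · intro h
      have := mul_neg_of_pos_of_neg h0' h
      linarith
  have e2 : 0 < 0 + τ * a ↔ 0 < a := by
    rw [zero_add]
    exact mul_pos_iff_of_pos_left h0'
  have e3 : A + (1 + τ * b) * ki < A + ki + (0 + τ * a) * kj ↔ b * ki < a * kj := by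
    rw [← sub_neg, ← sub_neg (a := b * ki)]
    have e4 : A + (1 + τ * b) * ki - (A + ki + (0 + τ * a) * kj) = τ * (b * ki - a * kj) := by ring
    rw [e4]
    constructor
    · intro h
      by_contra hc
      have := mul_nonneg h0'.le (not_lt.1 hc)
      linarith
    · exact fun h => mul_neg_of_pos_of_neg h0' h
  rw [e1, e2, e3]
  constructor
  · rintro ⟨k2, -, -, k1, k3⟩
    exact ⟨k1, k2, k3⟩
  · rintro ⟨k1, k2, k3⟩
    exact ⟨k2, h2, h1, k1, k3⟩

/-- Signs at a common vertex. -/
theorem near_alg {a b ki kj D s : ℝ} (ha : a ≠ 0) (hb : b ≠ 0) (hD : D ≠ 0) (hs : D = a * b * s)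
    (hmin : a < 0 → 0 < b → s * (kj / b - ki / a) < 0)
    (hmax : 0 < a → b < 0 → 0 < s * (kj / b - ki / a)) :
    (if b / D < 0 ∧ 0 < a / D ∧ a / D * kj < b / D * ki then sg1 D else 0) +
      (if b / -D < 0 ∧ 0 < a / -D ∧ b / -D * ki < a / -D * kj then sg1 (-D) else 0) =
      if a < 0 ∧ 0 < b then (-1 : ℝ) else 0 := by
  have hs0 : s ≠ 0 := by
    rintro rfl
    rw [mul_zero] at hs
    exact hD hs
  have hss : 0 < s * s := mul_self_pos.2 hs0
  have T1 : a / D * kj < b / D * ki ↔ s * (kj / b - ki / a) < 0 := by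
    have e1 : (a / D * kj - b / D * ki) * (s * s) = s * (kj / b - ki / a) := by
      rw [hs]
      field_simp
    rw [← sub_neg, ← e1]
    constructor
    · exact fun h => mul_neg_of_neg_of_pos h hss
    · intro h
      by_contra hc
      have := mul_nonneg (not_lt.1 hc) hss.le
      linarith
  have T2 : b / -D * ki < a / -D * kj ↔ s * (kj / b - ki / a) < 0 := by
    rw [← T1, div_neg, div_neg]
    constructor <;> intro h <;> linarith
  simp only [T1, T2]
  rcases lt_or_gt_of_ne ha with h1 | h1 <;> rcases lt_or_gt_of_ne hb with h2 | h2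
  · rw [if_neg, if_neg, if_neg, add_zero]
    · exact fun k => lt_asymm k.2 h2
    · rintro ⟨k1, k2, -⟩
      rw [div_neg_iff] at k1
      rw [div_pos_iff] at k2
      rcases k1 with k1 | k1 <;> rcases k2 with k2 | k2 <;> linarith [k1.1, k1.2, k2.1, k2.2]
    · rintro ⟨k1, k2, -⟩
      rw [div_neg_iff] at k1
      rw [div_pos_iff] at k2
      rcases k1 with k1 | k1 <;> rcases k2 with k2 | k2 <;> linarith [k1.1, k1.2, k2.1, k2.2]
  · rw [if_pos (show a < 0 ∧ 0 < b from ⟨h1, h2⟩)]
    have hm := hmin h1 h2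
    rcases lt_or_gt_of_ne hD with h3 | h3
    · rw [if_pos ⟨div_neg_of_pos_of_neg h2 h3, div_pos_of_neg_of_neg h1 h3, hm⟩, if_neg, add_zero]
      · unfold sg1
        rw [if_neg (not_lt.2 h3.le)]
      · rintro ⟨k1, -, -⟩
        have := div_pos h2 (neg_pos.2 h3)
        linarith
    · rw [if_neg, if_pos ⟨div_neg_of_pos_of_neg h2 (neg_lt_zero.2 h3),
        div_pos_of_neg_of_neg h1 (neg_lt_zero.2 h3), hm⟩, zero_add]
      · unfold sg1
        rw [if_neg (not_lt.2 (neg_lt_zero.2 h3).le)]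
      · rintro ⟨k1, -, -⟩
        have := div_pos h2 h3
        linarith
  · have hm := hmax h1 h2
    rw [if_neg, if_neg, if_neg, add_zero]
    · exact fun k => lt_asymm k.1 h1
    · exact fun k => lt_asymm k.2.2 hm
    · exact fun k => lt_asymm k.2.2 hm
  · rw [if_neg, if_neg, if_neg, add_zero]
    · exact fun k => lt_asymm k.1 h1
    · rintro ⟨k1, k2, -⟩
      rw [div_neg_iff] at k1
      rw [div_pos_iff] at k2
      rcases k1 with k1 | k1 <;> rcases k2 with k2 | k2 <;> linarith [k1.1, k1.2, k2.1, k2.2]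
    · rintro ⟨k1, k2, -⟩
      rw [div_neg_iff] at k1
      rw [div_pos_iff] at k2
      rcases k1 with k1 | k1 <;> rcases k2 with k2 | k2 <;> linarith [k1.1, k1.2, k2.1, k2.2]

/-- The determinant in terms of the slopes. -/
theorem dt_slo {v : I → E} (hF : Frt σ v) (i j : I) : dt (dd σ v i) (dd σ v j) =
    (dd σ v i).re * (dd σ v j).re * (slo σ v j - slo σ v i) := by
  have h1 := hF.nv i
  have h2 := hF.nv j
  unfold slo dt
  field_simp

/-- The two pairs at a vertex, as an eventual statement. -/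
theorem shift_near_ev {v : I → E} (hF : Frt σ v) (i : I) :
    ∀ᶠ τ in 𝓝[>] (0 : ℝ),
      crS (sh τ (v i)) (sh τ (v (σ i))) (v (σ i)) (v (σ (σ i))) +
        crS (sh τ (v (σ i))) (sh τ (v (σ (σ i)))) (v i) (v (σ i)) =
      if (dd σ v i).re < 0 ∧ 0 < (dd σ v (σ i)).re then -1 else 0 := by
  have ha := hF.nv i
  have hb := hF.nv (σ i)
  have hs := dt_slo hF i (σ i)
  have hmin : (dd σ v i).re < 0 → 0 < (dd σ v (σ i)).re →
      (slo σ v (σ i) - slo σ v i) * (dh σ v (σ i) / (dd σ v (σ i)).re - dh σ v i / (dd σ v i).re) <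
        0 := by
    intro h1 h2
    have := hF.cmin i h1 h2
    unfold hsl at this
    linarith
  have hmax : 0 < (dd σ v i).re → (dd σ v (σ i)).re < 0 → 0 <
      (slo σ v (σ i) - slo σ v i) * (dh σ v (σ i) / (dd σ v (σ i)).re - dh σ v i / (dd σ v i).re) := by
    intro h1 h2
    have := hF.cmax i h1 h2
    unfold hsl at this
    linarith
  have hsw : dt (dd σ v (σ i)) (dd σ v i) = - dt (dd σ v i) (dd σ v (σ i)) := dt_swap _ _
  by_cases hD : dt (dd σ v i) (dd σ v (σ i)) = 0
  · have hD' : dt (dd σ v (σ i)) (dd σ v i) = 0 := by rw [hsw, hD, neg_zero]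
    refine Eventually.of_forall fun τ => ?_
    rw [shift_crS v i (σ i), shift_crS v (σ i) i, if_neg (fun k => k.1 hD), if_neg (fun k => k.1 hD'),
      if_neg, add_zero]
    · rintro ⟨k1, k2⟩
      have := hmin k1 k2
      rw [hD] at hs
      rcases mul_eq_zero.1 hs.symm with k | k
      · exact mul_ne_zero ha hb k
      · rw [k, zero_mul] at this
        exact lt_irrefl _ this
  have p1 : par σ v i (σ i) = 1 := div_self hD
  have p0 : par σ v (σ i) i = 0 := by
    unfold par
    rw [div_eq_zero_iff]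
    left
    unfold dd dt
    simp only [Complex.sub_re, Complex.sub_im]
    ring
  have hv : (v (σ i)).2 = (v i).2 + dh σ v i := by
    unfold dh
    ring
  have n1 := near_iff1 ((dd σ v i).re / dt (dd σ v i) (dd σ v (σ i)))
    ((dd σ v (σ i)).re / dt (dd σ v i) (dd σ v (σ i))) (dh σ v i) (dh σ v (σ i)) (v i).2
  have n2 := near_iff2 ((dd σ v i).re / -dt (dd σ v i) (dd σ v (σ i)))
    ((dd σ v (σ i)).re / -dt (dd σ v i) (dd σ v (σ i))) (dh σ v i) (dh σ v (σ i)) (v i).2
  filter_upwards [n1, n2] with τ h1 h2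
  rw [shift_crS v i (σ i), shift_crS v (σ i) i, p1, p0, hsw, hv]
  rw [← near_alg ha hb hD hs hmin hmax]
  congr 1
  · refine if_congr ?_ rfl rfl
    rw [← h1]
    exact ⟨fun k => k.2, fun k => ⟨hD, k⟩⟩
  · refine if_congr ?_ rfl rfl
    rw [← h2]
    exact ⟨fun k => k.2, fun k => ⟨neg_ne_zero.2 hD, k⟩⟩

end Pool.Agent.Lib.MP_ca0971_gt.OT
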