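import Pool.Agent.Lib.MP_ca0971_gt.OT.Lnk.Def

/-!
# Project OT, Lnk: a segment and a triangle

Let T = (A, B, C) be not degenerate in the projection, ori = sg1 of dt (B - A) (C - A), and let the segment
f = a a' be disjoint from T (in space), the points a, a' on no line of an edge of T, A, B, C not on the
line of f. Put Top x = ori if x projects into the interior of T and x is above the plane of T, else 0. Then
the three signed crossings of f OVER the edges of T add up to Top a - Top a':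
the part of f over the projected triangle is a segment s0 ≤ s ≤ s1 (or empty); on it the height of f minus
the height of the plane is affine in s and has no zero, so it has one sign. Negative: no crossing is
counted and Top = 0 for those ends which are in the triangle. Positive: at s0 > 0 there is one entering
crossing with sign - ori, at s1 < 1 one leaving crossing with sign ori (dt d_f d_e; for ori = 1 the
interior is on the left of every edge).
-/

set_option autoImplicit false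

namespace Pool.Agent.Lib.MP_ca0971_gt.OT

open Finset Filter Topology

open Classical in
/-- Top. -/
noncomputable def top (A B C x : E) : ℝ :=
  if ∃ l m : ℝ, 0 < l ∧ 0 < m ∧ l + m < 1 ∧
      x.1 = A.1 + (l : ℂ) * (B.1 - A.1) + (m : ℂ) * (C.1 - A.1) ∧
      A.2 + l * (B.2 - A.2) + m * (C.2 - A.2) < x.2
  then sg1 (dt (B.1 - A.1) (C.1 - A.1)) else 0

namespace TriSeg

/-- Barycentric coordinates in the projection. -/
structure Bar (A B C x : E) (p q r : ℝ) : Prop where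
  sum : p + q + r = 1
  re : x.1.re = p * A.1.re + q * B.1.re + r * C.1.re
  im : x.1.im = p * A.1.im + q * B.1.im + r * C.1.im

variable {A B C a a' x : E} {p q r p0 q0 r0 p1 q1 r1 : ℝ}

theorem Bar.rot (h : Bar A B C x p q r) : Bar B C A x q r p :=
  ⟨by linarith [h.sum], by linarith [h.re], by linarith [h.im]⟩

theorem bar_ex (hnd : dt (B.1 - A.1) (C.1 - A.1) ≠ 0) (x : E) :
    ∃ p q r, Bar A B C x p q r := by
  refine ⟨dt (C.1 - B.1) (x.1 - B.1) / dt (B.1 - A.1) (C.1 - A.1),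
    dt (A.1 - C.1) (x.1 - C.1) / dt (B.1 - A.1) (C.1 - A.1),
    dt (B.1 - A.1) (x.1 - A.1) / dt (B.1 - A.1) (C.1 - A.1), ?_, ?_, ?_⟩
  · rw [← add_div, ← add_div, div_eq_one_iff_eq hnd]
    unfold dt
    simp only [Complex.sub_re, Complex.sub_im]
    ring
  · rw [div_mul_eq_mul_div, div_mul_eq_mul_div, div_mul_eq_mul_div, ← add_div, ← add_div,
      eq_div_iff hnd]
    unfold dt
    simp only [Complex.sub_re, Complex.sub_im]
    ring
  · rw [div_mul_eq_mul_div, div_mul_eq_mul_div, div_mul_eq_mul_div, ← add_div, ← add_div,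
      eq_div_iff hnd]
    unfold dt
    simp only [Complex.sub_re, Complex.sub_im]
    ring

theorem dt_rot (A B C : E) :
    dt (C.1 - B.1) (A.1 - B.1) = dt (B.1 - A.1) (C.1 - A.1) := by
  unfold dt
  simp only [Complex.sub_re, Complex.sub_im]
  ring

theorem Bar.dr (h : Bar A B C x p q r) :
    dt (B.1 - A.1) (x.1 - A.1) = r * dt (B.1 - A.1) (C.1 - A.1) := by
  have e : p = 1 - q - r := by linarith [h.sum]
  unfold dt
  simp only [Complex.sub_re, Complex.sub_im]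
  rw [h.re, h.im, e]
  ring

theorem Bar.f1 (h : Bar A B C a p0 q0 r0) :
    dt (A.1 - a.1) (B.1 - A.1) = r0 * dt (B.1 - A.1) (C.1 - A.1) := by
  have e : p0 = 1 - q0 - r0 := by linarith [h.sum]
  unfold dt
  simp only [Complex.sub_re, Complex.sub_im]
  rw [h.re, h.im, e]
  ring

theorem Bar.f2 (h : Bar A B C a p0 q0 r0) (h' : Bar A B C a' p1 q1 r1) :
    dt (a'.1 - a.1) (B.1 - A.1) = (r0 - r1) * dt (B.1 - A.1) (C.1 - A.1) := by
  have e : p0 = 1 - q0 - r0 := by linarith [h.sum]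
  have e' : p1 = 1 - q1 - r1 := by linarith [h'.sum]
  unfold dt
  simp only [Complex.sub_re, Complex.sub_im]
  rw [h.re, h.im, h'.re, h'.im, e, e']
  ring

theorem Bar.f3 (h : Bar A B C a p0 q0 r0) (h' : Bar A B C a' p1 q1 r1) :
    dt (B.1 - A.1) (a'.1 - a.1) = (r1 - r0) * dt (B.1 - A.1) (C.1 - A.1) := by
  have e : p0 = 1 - q0 - r0 := by linarith [h.sum]
  have e' : p1 = 1 - q1 - r1 := by linarith [h'.sum]
  unfold dt
  simp only [Complex.sub_re, Complex.sub_im]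
  rw [h.re, h.im, h'.re, h'.im, e, e']
  ring

theorem Bar.f4 (h : Bar A B C a p0 q0 r0) (h' : Bar A B C a' p1 q1 r1) :
    dt (a.1 - A.1) (a'.1 - a.1) = (q0 * r1 - r0 * q1) * dt (B.1 - A.1) (C.1 - A.1) := by
  have e : p0 = 1 - q0 - r0 := by linarith [h.sum]
  have e' : p1 = 1 - q1 - r1 := by linarith [h'.sum]
  unfold dt
  simp only [Complex.sub_re, Complex.sub_im]
  rw [h.re, h.im, h'.re, h'.im, e, e']
  ring

theorem Bar.f5 (h : Bar A B C a p0 q0 r0) (h' : Bar A B C a' p1 q1 r1) :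
    dt (a'.1 - a.1) (A.1 - a.1) = (q0 * r1 - r0 * q1) * dt (B.1 - A.1) (C.1 - A.1) := by
  have e : p0 = 1 - q0 - r0 := by linarith [h.sum]
  have e' : p1 = 1 - q1 - r1 := by linarith [h'.sum]
  unfold dt
  simp only [Complex.sub_re, Complex.sub_im]
  rw [h.re, h.im, h'.re, h'.im, e, e']
  ring

/-- The height over the plane of the triangle. -/
def hh (A B C x : E) (p q r : ℝ) : ℝ := x.2 - (p * A.2 + q * B.2 + r * C.2)

/-- The height at the parameter `s`. -/
noncomputable def hs (H0 H1 s : ℝ) : ℝ := (1 - s) * H0 + s * H1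

/-- The crossing with the edge `A B`. -/
theorem crS_AB (hnd : dt (B.1 - A.1) (C.1 - A.1) ≠ 0) (h : Bar A B C a p0 q0 r0)
    (h' : Bar A B C a' p1 q1 r1) :
    crS a a' A B = if (r0 * r1 < 0 ∧ 0 < (r0 * p1 - p0 * r1) * (r0 - r1) ∧
        (q0 * r1 - r0 * q1) * (r0 - r1) < 0) ∧
        0 < hs (hh A B C a p0 q0 r0) (hh A B C a' p1 q1 r1) (r0 / (r0 - r1))
      then sg1 ((r0 - r1) * dt (B.1 - A.1) (C.1 - A.1)) else 0 := by
  unfold crS
  rw [h.f2 h', h.f1, h.f4 h', h.f3 h', mul_div_mul_right _ _ hnd, mul_div_mul_right _ _ hnd]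
  have e : p0 = 1 - q0 - r0 := by linarith [h.sum]
  have e' : p1 = 1 - q1 - r1 := by linarith [h'.sum]
  refine if_congr ?_ rfl rfl
  by_cases hr : r0 - r1 = 0
  · have hr' : r0 = r1 := by linarith
    rw [hr, zero_mul]
    constructor
    · intro h1
      exact absurd rfl h1.1
    · rintro ⟨⟨h1, -, -⟩, -⟩
      exfalso
      rw [hr'] at h1
      nlinarith [mul_self_nonneg r1]
  have e1 : (q0 * r1 - r0 * q1) / (r1 - r0) = 1 - (r0 * p1 - p0 * r1) / (r0 - r1) := by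
    have hr2 : r1 - r0 ≠ 0 := fun h1 => hr (by linarith)
    rw [eq_sub_iff_add_eq, div_add_div _ _ hr2 hr, div_eq_one_iff_eq (mul_ne_zero hr2 hr), e, e']
    ring
  have e2 : (q0 * r1 - r0 * q1) / (r1 - r0) = -((q0 * r1 - r0 * q1) / (r0 - r1)) := by
    rw [← div_neg]
    congr 1
    ring
  have k1 : 0 < r0 / (r0 - r1) ∧ r0 / (r0 - r1) < 1 ↔ r0 * r1 < 0 := by
    rcases lt_or_gt_of_ne hr with h1 | h1
    · rw [div_pos_iff, div_lt_one_of_neg h1]
      constructor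
      · rintro ⟨h2 | h2, h3⟩
        · linarith
        · nlinarith
      · intro h2
        rcases mul_neg_iff.1 h2 with h3 | h3
        · linarith
        · exact ⟨Or.inr ⟨h3.1, h1⟩, by linarith⟩
    · rw [div_pos_iff, div_lt_one h1]
      constructor
      · rintro ⟨h2 | h2, h3⟩
        · nlinarith
        · linarith
      · intro h2
        rcases mul_neg_iff.1 h2 with h3 | h3
        · exact ⟨Or.inl ⟨h3.1, h1⟩, by linarith⟩
        · linarith
  have k2 : 0 < (q0 * r1 - r0 * q1) / (r1 - r0) ↔ (q0 * r1 - r0 * q1) * (r0 - r1) < 0 := by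
    rw [e2, neg_pos, div_neg_iff, mul_neg_iff]
  have k3 : (q0 * r1 - r0 * q1) / (r1 - r0) < 1 ↔ 0 < (r0 * p1 - p0 * r1) * (r0 - r1) := by
    rw [e1, sub_lt_self_iff, div_pos_iff, mul_pos_iff]
  have k4 : A.2 + (q0 * r1 - r0 * q1) / (r1 - r0) * (B.2 - A.2) <
      a.2 + r0 / (r0 - r1) * (a'.2 - a.2) ↔
      0 < hs (hh A B C a p0 q0 r0) (hh A B C a' p1 q1 r1) (r0 / (r0 - r1)) := by
    have e3 : hs (hh A B C a p0 q0 r0) (hh A B C a' p1 q1 r1) (r0 / (r0 - r1)) =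
        a.2 + r0 / (r0 - r1) * (a'.2 - a.2) -
          (A.2 + (q0 * r1 - r0 * q1) / (r1 - r0) * (B.2 - A.2)) := by
      rw [e2, e, e']
      unfold hs hh
      field_simp
      ring
    rw [e3, sub_pos]
  have k0 : (r0 - r1) * dt (B.1 - A.1) (C.1 - A.1) ≠ 0 := mul_ne_zero hr hnd
  rw [k4]
  constructor
  · rintro ⟨-, h1, h2, h3, h4, h5⟩
    exact ⟨⟨k1.1 ⟨h1, h2⟩, k3.1 h4, k2.1 h3⟩, h5⟩
  · rintro ⟨⟨h1, h2, h3⟩, h5⟩
    exact ⟨k0, (k1.2 h1).1, (k1.2 h1).2, k2.2 h3, k3.2 h2, h5⟩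

/-! ### The signs -/

/-- The crossing by signs. -/
def cb (x0 x1 m n : Bool) : ℤ :=
  if x0 ≠ x1 ∧ m = x0 ∧ n ≠ x0 then (if x0 then 1 else -1) else 0

theorem boo (a0 b0 g0 a1 b1 g1 mA mB mC : Bool)
    (h1 : a0 = true ∨ b0 = true ∨ g0 = true) (h2 : a1 = true ∨ b1 = true ∨ g1 = true)
    (h3 : b0 = g1 → g0 ≠ b1 → mA = true) (h3' : b0 ≠ g1 → g0 = b1 → mA = false)
    (h4 : g0 = a1 → a0 ≠ g1 → mB = true) (h4' : g0 ≠ a1 → a0 = g1 → mB = false)
    (h5 : a0 = b1 → b0 ≠ a1 → mC = true) (h5' : a0 ≠ b1 → b0 = a1 → mC = false)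
    (h6 : ¬ (a0 = mA ∧ b0 = mB ∧ g0 = mC)) (h7 : ¬ (a0 ≠ mA ∧ b0 ≠ mB ∧ g0 ≠ mC))
    (h8 : ¬ (a1 = mA ∧ b1 = mB ∧ g1 = mC)) (h9 : ¬ (a1 ≠ mA ∧ b1 ≠ mB ∧ g1 ≠ mC)) :
    cb g0 g1 mB mA + cb a0 a1 mC mB + cb b0 b1 mA mC =
      (if a0 = true ∧ b0 = true ∧ g0 = true then 1 else 0) -
        (if a1 = true ∧ b1 = true ∧ g1 = true then 1 else 0) := by
  revert h1 h2 h3 h3' h4 h4' h5 h5' h6 h7 h8 h9
  cases a0 <;> cases b0 <;> cases g0 <;> cases a1 <;> cases b1 <;> cases g1 <;> cases mA <;>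
    cases mB <;> cases mC <;> simp [cb]

/-- The sign of a real number as a Boolean. -/
noncomputable def bs (x : ℝ) : Bool := @decide (0 < x) (Classical.propDecidable _)

theorem bs_pos {x : ℝ} : bs x = true ↔ 0 < x := by
  unfold bs
  exact @decide_eq_true_iff _ (Classical.propDecidable _)

theorem bs_neg {x : ℝ} (h : x ≠ 0) : bs x = false ↔ x < 0 := by
  rw [← Bool.not_eq_true, bs_pos, not_lt]
  exact ⟨fun h1 => lt_of_le_of_ne h1 h, fun h1 => h1.le⟩

theorem bs_eq {x y : ℝ} (hx : x ≠ 0) (hy : y ≠ 0) : bs x = bs y ↔ 0 < x * y := by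
  rw [mul_pos_iff]
  rcases lt_or_gt_of_ne hx with h1 | h1 <;> rcases lt_or_gt_of_ne hy with h2 | h2
  · rw [(bs_neg hx).2 h1, (bs_neg hy).2 h2]
    simp [h1, h2]
  · rw [(bs_neg hx).2 h1, bs_pos.2 h2]
    simp [h1.not_gt, h2.not_gt]
  · rw [bs_pos.2 h1, (bs_neg hy).2 h2]
    simp [h1.not_gt, h2.not_gt]
  · rw [bs_pos.2 h1, bs_pos.2 h2]
    simp [h1, h2]

theorem bs_ne {x y : ℝ} (hx : x ≠ 0) (hy : y ≠ 0) : bs x ≠ bs y ↔ x * y < 0 := by
  rw [Ne, bs_eq hx hy, not_lt]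
  exact ⟨fun h => lt_of_le_of_ne h (mul_ne_zero hx hy), fun h => h.le⟩

theorem bs_sub {x0 x1 : ℝ} (k : x0 * x1 < 0) : bs (x0 - x1) = bs x0 ∧ x0 - x1 ≠ 0 := by
  have h0 : x0 ≠ 0 := by
    rintro rfl
    simp at k
  have hd : x0 - x1 ≠ 0 := by
    intro h
    have : x0 = x1 := by linarith
    rw [this] at k
    nlinarith [mul_self_nonneg x1]
  exact ⟨(bs_eq hd h0).2 (by nlinarith [mul_self_nonneg x0]), hd⟩

theorem cb_real {x0 x1 m n : ℝ} (h0 : x0 ≠ 0) (h1 : x1 ≠ 0) (hm : m ≠ 0) (hn : n ≠ 0) :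
    (x0 * x1 < 0 ∧ 0 < m * (x0 - x1) ∧ n * (x0 - x1) < 0) ↔
      (bs x0 ≠ bs x1 ∧ bs m = bs x0 ∧ bs n ≠ bs x0) := by
  rw [bs_ne h0 h1]
  refine and_congr_right fun k1 => ?_
  obtain ⟨k2, hd⟩ := bs_sub k1
  rw [← bs_eq hm hd, ← bs_ne hn hd, k2]

theorem sg1_mul {x y : ℝ} (hx : x ≠ 0) (hy : y ≠ 0) : sg1 (x * y) = sg1 x * sg1 y := by
  unfold sg1
  rcases lt_or_gt_of_ne hx with h1 | h1 <;> rcases lt_or_gt_of_ne hy with h2 | h2
  · rw [if_pos (mul_pos_of_neg_of_neg h1 h2), if_neg h1.not_gt, if_neg h2.not_gt]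
    norm_num
  · rw [if_neg (mul_neg_of_neg_of_pos h1 h2).not_gt, if_neg h1.not_gt, if_pos h2]
    norm_num
  · rw [if_neg (mul_neg_of_pos_of_neg h1 h2).not_gt, if_pos h1, if_neg h2.not_gt]
    norm_num
  · rw [if_pos (mul_pos h1 h2), if_pos h1, if_pos h2]
    norm_num

/-- The value of a crossing. -/
theorem val {x0 x1 m n D H : ℝ} (hD : D ≠ 0) (h0 : x0 ≠ 0) (h1 : x1 ≠ 0) (hm : m ≠ 0)
    (hn : n ≠ 0)
    (hH : (x0 * x1 < 0 ∧ 0 < m * (x0 - x1) ∧ n * (x0 - x1) < 0) → 0 < H) :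
    (if (x0 * x1 < 0 ∧ 0 < m * (x0 - x1) ∧ n * (x0 - x1) < 0) ∧ 0 < H
      then sg1 ((x0 - x1) * D) else 0) =
      sg1 D * ((cb (bs x0) (bs x1) (bs m) (bs n) : ℤ) : ℝ) := by
  unfold cb
  by_cases k : x0 * x1 < 0 ∧ 0 < m * (x0 - x1) ∧ n * (x0 - x1) < 0
  · obtain ⟨k2, hd⟩ := bs_sub k.1
    rw [if_pos ⟨k, hH k⟩, if_pos ((cb_real h0 h1 hm hn).1 k), sg1_mul hd hD, mul_comm]
    congr 1
    rw [← k2]
    unfold sg1
    by_cases k3 : 0 < x0 - x1
    · rw [if_pos k3, if_pos (bs_pos.2 k3)]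
      norm_num
    · rw [if_neg k3, if_neg (fun k4 => k3 (bs_pos.1 k4))]
      norm_num
  · rw [if_neg (fun k2 => k k2.1), if_neg (fun k2 => k ((cb_real h0 h1 hm hn).2 k2))]
    norm_num

/-- The part of the segment over the triangle. -/
def Pt (p0 q0 r0 p1 q1 r1 s : ℝ) : Prop :=
  0 ≤ s ∧ s ≤ 1 ∧ 0 ≤ (1 - s) * p0 + s * p1 ∧ 0 ≤ (1 - s) * q0 + s * q1 ∧
    0 ≤ (1 - s) * r0 + s * r1

theorem Pt.rot {s : ℝ} (h : Pt p0 q0 r0 p1 q1 r1 s) : Pt q0 r0 p0 q1 r1 p1 s :=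
  ⟨h.1, h.2.1, h.2.2.2.1, h.2.2.2.2, h.2.2.1⟩

theorem pt_cr (h : r0 * r1 < 0 ∧ 0 < (r0 * p1 - p0 * r1) * (r0 - r1) ∧
    (q0 * r1 - r0 * q1) * (r0 - r1) < 0) : Pt p0 q0 r0 p1 q1 r1 (r0 / (r0 - r1)) := by
  obtain ⟨h1, h2, h3⟩ := h
  obtain ⟨-, hd⟩ := bs_sub h1
  have d2 : 0 < (r0 - r1) ^ 2 := by positivity
  have e0 : r0 / (r0 - r1) = (r0 * (r0 - r1)) / (r0 - r1) ^ 2 := by
    field_simp
  have e1 : 1 - r0 / (r0 - r1) = (-(r1 * (r0 - r1))) / (r0 - r1) ^ 2 := by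
    field_simp
    ring
  have e2 : (1 - r0 / (r0 - r1)) * p0 + r0 / (r0 - r1) * p1 =
      ((r0 * p1 - p0 * r1) * (r0 - r1)) / (r0 - r1) ^ 2 := by
    field_simp
    ring
  have e3 : (1 - r0 / (r0 - r1)) * q0 + r0 / (r0 - r1) * q1 =
      (-((q0 * r1 - r0 * q1) * (r0 - r1))) / (r0 - r1) ^ 2 := by
    field_simp
    ring
  have e4 : (1 - r0 / (r0 - r1)) * r0 + r0 / (r0 - r1) * r1 = 0 := by
    field_simp
    ring
  refine ⟨?_, ?_, ?_, ?_, ?_⟩
  · rw [e0]
    exact div_nonneg (by nlinarith [mul_self_nonneg r0]) d2.le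
  · have : 0 ≤ 1 - r0 / (r0 - r1) := by
      rw [e1]
      exact div_nonneg (by nlinarith [mul_self_nonneg r1]) d2.le
    linarith
  · rw [e2]
    exact div_nonneg h2.le d2.le
  · rw [e3]
    exact div_nonneg (by linarith) d2.le
  · rw [e4]

/-- On the part over the triangle the height has one sign. -/
theorem pt_one {H0 H1 : ℝ} (hP : ∀ s, Pt p0 q0 r0 p1 q1 r1 s → hs H0 H1 s ≠ 0) {s1 s2 : ℝ}
    (k1 : Pt p0 q0 r0 p1 q1 r1 s1) (k2 : Pt p0 q0 r0 p1 q1 r1 s2) (h1 : 0 < hs H0 H1 s1) :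
    0 < hs H0 H1 s2 := by
  by_contra h2
  have h3 : hs H0 H1 s2 < 0 := lt_of_le_of_ne (not_lt.1 h2) (hP s2 k2)
  set x := hs H0 H1 s1 with hx
  set y := hs H0 H1 s2 with hy
  have hd : 0 < x - y := by linarith
  set u := -y / (x - y) with hu
  set w := x / (x - y) with hw
  have u0 : 0 ≤ u := div_nonneg (by linarith) hd.le
  have w0 : 0 ≤ w := div_nonneg h1.le hd.le
  have uw : u + w = 1 := by
    rw [hu, hw, ← add_div, div_eq_one_iff_eq hd.ne']
    ring
  have e : ∀ a b : ℝ, (1 - (u * s1 + w * s2)) * a + (u * s1 + w * s2) * b =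
      u * ((1 - s1) * a + s1 * b) + w * ((1 - s2) * a + s2 * b) := by
    intro a b
    have : w = 1 - u := by linarith
    rw [this]
    ring
  refine hP (u * s1 + w * s2) ⟨?_, ?_, ?_, ?_, ?_⟩ ?_
  · exact add_nonneg (mul_nonneg u0 k1.1) (mul_nonneg w0 k2.1)
  · have a1 := mul_le_mul_of_nonneg_left k1.2.1 u0
    have a2 := mul_le_mul_of_nonneg_left k2.2.1 w0
    linarith
  · rw [e]
    exact add_nonneg (mul_nonneg u0 k1.2.2.1) (mul_nonneg w0 k2.2.2.1)
  · rw [e]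
    exact add_nonneg (mul_nonneg u0 k1.2.2.2.1) (mul_nonneg w0 k2.2.2.2.1)
  · rw [e]
    exact add_nonneg (mul_nonneg u0 k1.2.2.2.2) (mul_nonneg w0 k2.2.2.2.2)
  · have e5 : hs H0 H1 (u * s1 + w * s2) = u * x + w * y := by
      rw [hx, hy]
      unfold hs
      exact e H0 H1
    rw [e5, hu, hw, div_mul_eq_mul_div, div_mul_eq_mul_div, ← add_div]
    rw [div_eq_zero_iff]
    left
    ring

/-- The value of `top`. -/
theorem top_eq (hnd : dt (B.1 - A.1) (C.1 - A.1) ≠ 0) (h : Bar A B C x p q r) :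
    top A B C x = sg1 (dt (B.1 - A.1) (C.1 - A.1)) *
      (((if bs p = true ∧ bs q = true ∧ bs r = true ∧ 0 < hh A B C x p q r then 1 else 0 : ℤ)) :
        ℝ) := by
  have e : p = 1 - q - r := by linarith [h.sum]
  have key : (∃ l m : ℝ, 0 < l ∧ 0 < m ∧ l + m < 1 ∧
      x.1 = A.1 + (l : ℂ) * (B.1 - A.1) + (m : ℂ) * (C.1 - A.1) ∧
      A.2 + l * (B.2 - A.2) + m * (C.2 - A.2) < x.2) ↔
      (bs p = true ∧ bs q = true ∧ bs r = true ∧ 0 < hh A B C x p q r) := by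
    rw [bs_pos, bs_pos, bs_pos]
    constructor
    · rintro ⟨l, m, h1, h2, h3, h4, h5⟩
      have x1 := congrArg Complex.re h4
      have x2 := congrArg Complex.im h4
      simp only [Complex.add_re, Complex.add_im, Complex.re_ofReal_mul, Complex.im_ofReal_mul,
        Complex.sub_re, Complex.sub_im] at x1 x2
      rw [h.re, e] at x1
      rw [h.im, e] at x2
      have hr : (r - m) * dt (B.1 - A.1) (C.1 - A.1) = 0 := by
        unfold dt
        simp only [Complex.sub_re, Complex.sub_im]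
        linear_combination (B.1.re - A.1.re) * x2 - (B.1.im - A.1.im) * x1
      have hq : (q - l) * dt (B.1 - A.1) (C.1 - A.1) = 0 := by
        unfold dt
        simp only [Complex.sub_re, Complex.sub_im]
        linear_combination (C.1.im - A.1.im) * x1 - (C.1.re - A.1.re) * x2
      have er : r = m := by
        rcases mul_eq_zero.1 hr with k | k
        · linarith
        · exact absurd k hnd
      have eq' : q = l := by
        rcases mul_eq_zero.1 hq with k | k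
        · linarith
        · exact absurd k hnd
      subst er eq'
      refine ⟨by linarith, h1, h2, ?_⟩
      unfold hh
      rw [e]
      linarith
    · rintro ⟨h1, h2, h3, h4⟩
      refine ⟨q, r, h2, h3, by linarith, ?_, ?_⟩
      · apply Complex.ext
        · simp only [Complex.add_re, Complex.re_ofReal_mul, Complex.sub_re]
          rw [h.re, e]
          ring
        · simp only [Complex.add_im, Complex.im_ofReal_mul, Complex.sub_im]
          rw [h.im, e]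
          ring
      · unfold hh at h4
        rw [e] at h4
        linarith
  unfold top
  by_cases k : bs p = true ∧ bs q = true ∧ bs r = true ∧ 0 < hh A B C x p q r
  · rw [if_pos (key.2 k), if_pos k]
    norm_num
  · rw [if_neg (fun k2 => k (key.1 k2)), if_neg k]
    norm_num

/-- Disjointness. -/
theorem dis (h : Bar A B C a p0 q0 r0) (h' : Bar A B C a' p1 q1 r1)
    (hd : Disjoint (segment ℝ a a') (convexHull ℝ {A, B, C})) (s : ℝ)
    (hs' : Pt p0 q0 r0 p1 q1 r1 s) :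
    hs (hh A B C a p0 q0 r0) (hh A B C a' p1 q1 r1) s ≠ 0 := by
  intro h0
  obtain ⟨s0, s1, k1, k2, k3⟩ := hs'
  have m1 : (1 - s) • a + s • a' ∈ segment ℝ a a' :=
    ⟨1 - s, s, by linarith, s0, by ring, rfl⟩
  have m2 : (1 - s) • a + s • a' ∈ convexHull ℝ {A, B, C} := by
    have hc := (convex_convexHull ℝ {A, B, C}).sum_mem (t := (Finset.univ : Finset (Fin 3)))
      (w := ![(1 - s) * p0 + s * p1, (1 - s) * q0 + s * q1, (1 - s) * r0 + s * r1])
      (z := ![A, B, C]) (by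
        intro i _
        fin_cases i
        · exact k1
        · exact k2
        · exact k3) (by
        rw [Fin.sum_univ_three]
        simp only [Matrix.cons_val]
        have := h.sum
        have := h'.sum
        linear_combination (1 - s) * h.sum + s * h'.sum) (by
        intro i _
        apply subset_convexHull
        fin_cases i <;> simp)
    rw [Fin.sum_univ_three] at hc
    simp only [Matrix.cons_val] at hc
    convert hc using 1
    apply Prod.ext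
    · apply Complex.ext
      · simp only [Prod.fst_add, Prod.smul_fst, Complex.add_re, Complex.real_smul,
          Complex.re_ofReal_mul]
        rw [h.re, h'.re]
        ring
      · simp only [Prod.fst_add, Prod.smul_fst, Complex.add_im, Complex.real_smul,
          Complex.im_ofReal_mul]
        rw [h.im, h'.im]
        ring
    · simp only [Prod.snd_add, Prod.smul_snd, smul_eq_mul]
      unfold hs hh at h0
      linear_combination h0
  exact Set.disjoint_left.1 hd m1 m2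

end TriSeg

open TriSeg in
theorem tri_seg {A B C a a' : E} (hnd : dt (B.1 - A.1) (C.1 - A.1) ≠ 0)
    (hd : Disjoint (segment ℝ a a') (convexHull ℝ {A, B, C}))
    (ha : dt (B.1 - A.1) (a.1 - A.1) ≠ 0 ∧ dt (C.1 - B.1) (a.1 - B.1) ≠ 0 ∧
      dt (A.1 - C.1) (a.1 - C.1) ≠ 0)
    (ha' : dt (B.1 - A.1) (a'.1 - A.1) ≠ 0 ∧ dt (C.1 - B.1) (a'.1 - B.1) ≠ 0 ∧
      dt (A.1 - C.1) (a'.1 - C.1) ≠ 0)
    (hx : dt (a'.1 - a.1) (A.1 - a.1) ≠ 0 ∧ dt (a'.1 - a.1) (B.1 - a.1) ≠ 0 ∧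
      dt (a'.1 - a.1) (C.1 - a.1) ≠ 0) :
    crS a a' A B + crS a a' B C + crS a a' C A = top A B C a - top A B C a' := by
  obtain ⟨p0, q0, r0, h⟩ := bar_ex hnd a
  obtain ⟨p1, q1, r1, h'⟩ := bar_ex hnd a'
  have d1 : dt (C.1 - B.1) (A.1 - B.1) = dt (B.1 - A.1) (C.1 - A.1) := dt_rot A B C
  have d2 : dt (A.1 - C.1) (B.1 - C.1) = dt (B.1 - A.1) (C.1 - A.1) := (dt_rot B C A).trans d1
  have hnd1 : dt (C.1 - B.1) (A.1 - B.1) ≠ 0 := d1 ▸ hnd
  have hnd2 : dt (A.1 - C.1) (B.1 - C.1) ≠ 0 := d2 ▸ hnd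
  have nr0 : r0 ≠ 0 := left_ne_zero_of_mul (h.dr ▸ ha.1)
  have np0 : p0 ≠ 0 := left_ne_zero_of_mul (h.rot.dr ▸ ha.2.1)
  have nq0 : q0 ≠ 0 := left_ne_zero_of_mul (h.rot.rot.dr ▸ ha.2.2)
  have nr1 : r1 ≠ 0 := left_ne_zero_of_mul (h'.dr ▸ ha'.1)
  have np1 : p1 ≠ 0 := left_ne_zero_of_mul (h'.rot.dr ▸ ha'.2.1)
  have nq1 : q1 ≠ 0 := left_ne_zero_of_mul (h'.rot.rot.dr ▸ ha'.2.2)
  have nA : q0 * r1 - r0 * q1 ≠ 0 := left_ne_zero_of_mul (h.f5 h' ▸ hx.1)
  have nB : r0 * p1 - p0 * r1 ≠ 0 := left_ne_zero_of_mul (h.rot.f5 h'.rot ▸ hx.2.1)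
  have nC : p0 * q1 - q0 * p1 ≠ 0 := left_ne_zero_of_mul (h.rot.rot.f5 h'.rot.rot ▸ hx.2.2)
  have hP := dis h h' hd
  have e1 : hh B C A a q0 r0 p0 = hh A B C a p0 q0 r0 := by
    unfold hh
    ring
  have e2 : hh B C A a' q1 r1 p1 = hh A B C a' p1 q1 r1 := by
    unfold hh
    ring
  have e3 : hh C A B a r0 p0 q0 = hh A B C a p0 q0 r0 := by
    unfold hh
    ring
  have e4 : hh C A B a' r1 p1 q1 = hh A B C a' p1 q1 r1 := by
    unfold hh
    ring
  rw [crS_AB hnd h h', crS_AB hnd1 h.rot h'.rot, crS_AB hnd2 h.rot.rot h'.rot.rot, e1, e2, e3, e4,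
    d1, d2, top_eq hnd h, top_eq hnd h']
  have n0 : hs (hh A B C a p0 q0 r0) (hh A B C a' p1 q1 r1) 0 = hh A B C a p0 q0 r0 := by
    unfold hs
    ring
  have n1 : hs (hh A B C a p0 q0 r0) (hh A B C a' p1 q1 r1) 1 = hh A B C a' p1 q1 r1 := by
    unfold hs
    ring
  have P0 : bs p0 = true → bs q0 = true → bs r0 = true → Pt p0 q0 r0 p1 q1 r1 0 := by
    intro a b c
    rw [bs_pos] at a b c
    exact ⟨le_rfl, zero_le_one, by linarith, by linarith, by linarith⟩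
  have P1 : bs p1 = true → bs q1 = true → bs r1 = true → Pt p0 q0 r0 p1 q1 r1 1 := by
    intro a b c
    rw [bs_pos] at a b c
    exact ⟨zero_le_one, le_rfl, by linarith, by linarith, by linarith⟩
  generalize hh A B C a p0 q0 r0 = H0 at *
  generalize hh A B C a' p1 q1 r1 = H1 at *
  generalize dt (B.1 - A.1) (C.1 - A.1) = D at *
  have kr := fun k => pt_cr (p0 := p0) (q0 := q0) (r0 := r0) (p1 := p1) (q1 := q1) (r1 := r1) k
  have kp := fun k => (pt_cr (p0 := q0) (q0 := r0) (r0 := p0) (p1 := q1) (q1 := r1)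
    (r1 := p1) k).rot.rot
  have kq := fun k => (pt_cr (p0 := r0) (q0 := p0) (r0 := q0) (p1 := r1) (q1 := p1)
    (r1 := q1) k).rot
  by_cases hH : ∃ s, Pt p0 q0 r0 p1 q1 r1 s ∧ 0 < hs H0 H1 s
  · obtain ⟨s, k1, k2⟩ := hH
    have all : ∀ s', Pt p0 q0 r0 p1 q1 r1 s' → 0 < hs H0 H1 s' := fun s' k3 => pt_one hP k1 k3 k2
    rw [val hnd nr0 nr1 nB nA (fun k => all _ (kr k)),
      val hnd np0 np1 nC nB (fun k => all _ (kp k)),
      val hnd nq0 nq1 nA nC (fun k => all _ (kq k))]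
    have t0 : (bs p0 = true ∧ bs q0 = true ∧ bs r0 = true ∧ 0 < H0) ↔
        (bs p0 = true ∧ bs q0 = true ∧ bs r0 = true) := by
      constructor
      · rintro ⟨a, b, c, -⟩
        exact ⟨a, b, c⟩
      · rintro ⟨a, b, c⟩
        exact ⟨a, b, c, n0 ▸ all 0 (P0 a b c)⟩
    have t1 : (bs p1 = true ∧ bs q1 = true ∧ bs r1 = true ∧ 0 < H1) ↔
        (bs p1 = true ∧ bs q1 = true ∧ bs r1 = true) := by
      constructor
      · rintro ⟨a, b, c, -⟩
        exact ⟨a, b, c⟩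
      · rintro ⟨a, b, c⟩
        exact ⟨a, b, c, n1 ▸ all 1 (P1 a b c)⟩
    simp only [t0, t1]
    rw [← mul_add, ← mul_add, ← mul_sub]
    congr 1
    have key := boo (bs p0) (bs q0) (bs r0) (bs p1) (bs q1) (bs r1)
      (bs (q0 * r1 - r0 * q1)) (bs (r0 * p1 - p0 * r1)) (bs (p0 * q1 - q0 * p1))
      (by
        rw [bs_pos, bs_pos, bs_pos]
        by_contra h0
        push Not at h0
        linarith [h.sum])
      (by
        rw [bs_pos, bs_pos, bs_pos]
        by_contra h0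
        push Not at h0
        linarith [h'.sum])
      (by
        rw [bs_eq nq0 nr1, bs_ne nr0 nq1, bs_pos]
        intro a b
        linarith)
      (by
        rw [bs_ne nq0 nr1, bs_eq nr0 nq1, bs_neg nA]
        intro a b
        linarith)
      (by
        rw [bs_eq nr0 np1, bs_ne np0 nr1, bs_pos]
        intro a b
        linarith)
      (by
        rw [bs_ne nr0 np1, bs_eq np0 nr1, bs_neg nB]
        intro a b
        linarith)
      (by
        rw [bs_eq np0 nq1, bs_ne nq0 np1, bs_pos]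
        intro a b
        linarith)
      (by
        rw [bs_ne np0 nq1, bs_eq nq0 np1, bs_neg nC]
        intro a b
        linarith)
      (by
        rw [bs_eq np0 nA, bs_eq nq0 nB, bs_eq nr0 nC]
        rintro ⟨a, b, c⟩
        linarith)
      (by
        rw [bs_ne np0 nA, bs_ne nq0 nB, bs_ne nr0 nC]
        rintro ⟨a, b, c⟩
        linarith)
      (by
        rw [bs_eq np1 nA, bs_eq nq1 nB, bs_eq nr1 nC]
        rintro ⟨a, b, c⟩
        linarith)
      (by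
        rw [bs_ne np1 nA, bs_ne nq1 nB, bs_ne nr1 nC]
        rintro ⟨a, b, c⟩
        linarith)
    exact_mod_cast key
  · push Not at hH
    have z : ∀ s, Pt p0 q0 r0 p1 q1 r1 s → ¬ 0 < hs H0 H1 s := fun s k => not_lt.2 (hH s k)
    rw [if_neg (fun k => z _ (kr k.1) k.2), if_neg (fun k => z _ (kp k.1) k.2),
      if_neg (fun k => z _ (kq k.1) k.2),
      if_neg (fun k => z 0 (P0 k.1 k.2.1 k.2.2.1) (n0.symm ▸ k.2.2.2)),
      if_neg (fun k => z 1 (P1 k.1 k.2.1 k.2.2.1) (n1.symm ▸ k.2.2.2))]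
    simp

/-- Reversing the lower segment. -/
theorem crS_rev (a a' b b' : E) : crS a a' b' b = - crS a a' b b' := by
  have f1 : dt (a'.1 - a.1) (b.1 - b'.1) = - dt (a'.1 - a.1) (b'.1 - b.1) := by
    unfold dt
    simp only [Complex.sub_re, Complex.sub_im]
    ring
  have f2 : dt (b'.1 - a.1) (b.1 - b'.1) = - dt (b.1 - a.1) (b'.1 - b.1) := by
    unfold dt
    simp only [Complex.sub_re, Complex.sub_im]
    ring
  have f3 : dt (b.1 - b'.1) (a'.1 - a.1) = - dt (b'.1 - b.1) (a'.1 - a.1) := by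
    unfold dt
    simp only [Complex.sub_re, Complex.sub_im]
    ring
  have f4 : dt (a.1 - b'.1) (a'.1 - a.1) =
      dt (a.1 - b.1) (a'.1 - a.1) - dt (b'.1 - b.1) (a'.1 - a.1) := by
    unfold dt
    simp only [Complex.sub_re, Complex.sub_im]
    ring
  have f5 : dt (b'.1 - b.1) (a'.1 - a.1) = - dt (a'.1 - a.1) (b'.1 - b.1) := by
    unfold dt
    simp only [Complex.sub_re, Complex.sub_im]
    ring
  unfold crS
  rw [f1, f2, f3, f4, neg_div_neg_eq, f5]
  generalize dt (a'.1 - a.1) (b'.1 - b.1) = D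
  generalize dt (b.1 - a.1) (b'.1 - b.1) / D = s
  generalize dt (a.1 - b.1) (a'.1 - a.1) = T
  by_cases hD : D = 0
  · subst hD
    simp
  · have e : (T - -D) / - -D = 1 - T / -D := by
      field_simp
      ring
    rw [e]
    have hc : (-D ≠ 0 ∧ 0 < s ∧ s < 1 ∧ 0 < 1 - T / -D ∧ 1 - T / -D < 1 ∧
        b'.2 + (1 - T / -D) * (b.2 - b'.2) < a.2 + s * (a'.2 - a.2)) ↔
        (D ≠ 0 ∧ 0 < s ∧ s < 1 ∧ 0 < T / -D ∧ T / -D < 1 ∧
        b.2 + T / -D * (b'.2 - b.2) < a.2 + s * (a'.2 - a.2)) := by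
      generalize T / -D = t
      constructor
      · rintro ⟨-, h2, h3, h4, h5, h6⟩
        exact ⟨hD, h2, h3, by linarith, by linarith, by linarith⟩
      · rintro ⟨-, h2, h3, h4, h5, h6⟩
        exact ⟨neg_ne_zero.2 hD, h2, h3, by linarith, by linarith, by linarith⟩
    by_cases k : D ≠ 0 ∧ 0 < s ∧ s < 1 ∧ 0 < T / -D ∧ T / -D < 1 ∧
        b.2 + T / -D * (b'.2 - b.2) < a.2 + s * (a'.2 - a.2)
    · rw [if_pos (hc.2 k), if_pos k]
      unfold sg1
      rcases lt_or_gt_of_ne hD with h1 | h1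
      · rw [if_pos (by linarith), if_neg (by linarith)]
        norm_num
      · rw [if_neg (by linarith), if_pos h1]
    · rw [if_neg (fun k2 => k (hc.1 k2)), if_neg k, neg_zero]

end Pool.Agent.Lib.MP_ca0971_gt.OT
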