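import Pool.Agent.Lib.MP_ca0971_gt.OT.Lnk.Tri

/-!
# Project OT, Lnk: the linking number with the boundary of a chain is 0
-/

set_option autoImplicit false

namespace Pool.Agent.Lib.MP_ca0971_gt.OT

open Finset Filter Topology

/-- Crossings of one segment over a closed polygon. -/
private noncomputable def zrC (f : E × E) (P : List E) : ℝ :=
  ((P.zip (P.rotate 1)).map fun e => crS f.1 f.2 e.1 e.2).sum

private theorem zr_lkO (Q P : List E) :
    lkO Q P = ((Q.zip (Q.rotate 1)).map fun f => zrC f P).sum := rfl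

private theorem zr_tri (f : E × E) (A B C : E) :
    zrC f [A, B, C] = crS f.1 f.2 A B + crS f.1 f.2 B C + crS f.1 f.2 C A := by
  have h : [A, B, C].rotate 1 = [B, C, A] := rfl
  unfold zrC
  rw [h]
  simp only [List.zip_cons_cons, List.zip_nil_left, List.map_cons, List.map_nil, List.sum_cons,
    List.sum_nil, add_zero]
  ring

private theorem zr_sub {α : Type} (L : List α) (g h : α → ℝ) :
    (L.map fun x => g x - h x).sum = (L.map g).sum - (L.map h).sum := by
  induction L with
  | nil => simp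
  | cons a t ih =>
    simp only [List.map_cons, List.sum_cons, ih]
    ring

private theorem zr_add {α : Type} (L : List α) (g h : α → ℝ) :
    (L.map fun x => g x + h x).sum = (L.map g).sum + (L.map h).sum := by
  induction L with
  | nil => simp
  | cons a t ih =>
    simp only [List.map_cons, List.sum_cons, ih]
    ring

private theorem zr_tele {α : Type} (Q : List α) (g : α → ℝ) :
    ((Q.zip (Q.rotate 1)).map fun f => g f.1 - g f.2).sum = 0 := by
  rw [zr_sub (Q.zip (Q.rotate 1)) (fun f => g f.1) (fun f => g f.2)]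
  have hl : Q.length = (Q.rotate 1).length := by rw [List.length_rotate]
  have h1 : (Q.zip (Q.rotate 1)).map (fun f => g f.1) = Q.map g := by
    have := List.map_fst_zip (l₁ := Q) (l₂ := Q.rotate 1) hl.le
    calc (Q.zip (Q.rotate 1)).map (fun f => g f.1)
        = ((Q.zip (Q.rotate 1)).map Prod.fst).map g := by rw [List.map_map]; rfl
      _ = Q.map g := by rw [this]
  have h2 : (Q.zip (Q.rotate 1)).map (fun f => g f.2) = (Q.rotate 1).map g := by
    have := List.map_snd_zip (l₁ := Q) (l₂ := Q.rotate 1) hl.ge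
    calc (Q.zip (Q.rotate 1)).map (fun f => g f.2)
        = ((Q.zip (Q.rotate 1)).map Prod.snd).map g := by rw [List.map_map]; rfl
      _ = (Q.rotate 1).map g := by rw [this]
  rw [h1, h2, sub_eq_zero]
  exact ((List.rotate_perm Q 1).map g).sum_eq.symm

/-- Telescoping sum of tri_seg over the closed polygon Q. -/
theorem lkO_tri {A B C : E} {Q : List E} (hnd : dt (B.1 - A.1) (C.1 - A.1) ≠ 0)
    (hd : Disjoint (convexHull ℝ {A, B, C}) (polyL Q))
    (ha : ∀ a ∈ Q, dt (B.1 - A.1) (a.1 - A.1) ≠ 0 ∧ dt (C.1 - B.1) (a.1 - B.1) ≠ 0 ∧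
      dt (A.1 - C.1) (a.1 - C.1) ≠ 0)
    (hx : ∀ f ∈ Q.zip (Q.rotate 1), dt (f.2.1 - f.1.1) (A.1 - f.1.1) ≠ 0 ∧
      dt (f.2.1 - f.1.1) (B.1 - f.1.1) ≠ 0 ∧ dt (f.2.1 - f.1.1) (C.1 - f.1.1) ≠ 0) :
    lkO Q [A, B, C] = 0 := by
  rw [zr_lkO, ← zr_tele Q (top A B C)]
  refine congrArg List.sum (List.map_congr_left ?_)
  intro f hf
  have hm := List.of_mem_zip (a := f.1) (b := f.2) hf
  rw [zr_tri]
  refine tri_seg hnd ?_ (ha _ hm.1) (ha _ (List.mem_rotate.1 hm.2)) (hx f hf)
  refine (hd.mono_right ?_).symm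
  intro y hy
  exact ⟨f, hf, hy⟩

/-- Rotation of the lower list. -/
theorem lkO_rot (Q l : List E) (k : ℕ) : lkO Q (l.rotate k) = lkO Q l := by
  rw [zr_lkO, zr_lkO]
  refine congrArg List.sum (List.map_congr_left ?_)
  intro f _
  unfold zrC
  have hz : (l.rotate k).zip ((l.rotate k).rotate 1) = (l.zip (l.rotate 1)).rotate k := by
    have hl : l.length = (l.rotate 1).length := by rw [List.length_rotate]
    rw [List.rotate_rotate, Nat.add_comm k 1, ← List.rotate_rotate]
    unfold List.zip
    rw [← List.zipWith_rotate_distrib _ _ _ _ hl]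
  rw [hz]
  exact ((List.rotate_perm (l.zip (l.rotate 1)) k).map _).sum_eq

private theorem zr_open (s : List E) (A x : E) :
    (s ++ [A]).zip ((s ++ [A]).tail ++ [x]) = s.zip (s ++ [A]).tail ++ [(A, x)] := by
  rw [List.zip_append (by simp)]
  rfl

private theorem zr_self (f : E × E) (b : E) : crS f.1 f.2 b b = 0 := by
  have := crS_rev f.1 f.2 b b
  linarith

private theorem zr_closed (f : E × E) (l : List E) (C : E) (hC : l.head? = some C) :
    zrC f l = ((l.zip (l.tail ++ [C])).map fun e => crS f.1 f.2 e.1 e.2).sum := by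
  cases l with
  | nil => simp at hC
  | cons a t =>
    simp only [List.head?_cons, Option.some.injEq] at hC
    subst hC
    unfold zrC
    rw [List.rotate_cons_succ, List.rotate_zero]
    rfl

private theorem zr_append (f : E × E) (l : List E) (A B C : E) (hA : l.getLast? = some A)
    (hC : l.head? = some C) : zrC f (l ++ [B]) = zrC f l + zrC f [A, B, C] := by
  have hs : ∃ s : List E, l = s ++ [A] := by
    have hne : l ≠ [] := by
      rintro rfl
      simp at hA
    refine ⟨l.dropLast, ?_⟩
    have h1 := List.getLast?_eq_some_getLast hne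
    rw [h1] at hA
    have h2 : l.getLast hne = A := by simpa using hA
    rw [← h2]
    exact (List.dropLast_append_getLast hne).symm
  obtain ⟨s, hs⟩ := hs
  have hC' : (l ++ [B]).head? = some C := by
    rw [List.head?_append, hC]
    rfl
  have ht : (l ++ [B]).tail = l.tail ++ [B] := by
    cases l with
    | nil => simp at hC
    | cons a t => rfl
  have e1 : zrC f (l ++ [B]) =
      ((l.zip (l.tail ++ [B])).map fun e => crS f.1 f.2 e.1 e.2).sum + crS f.1 f.2 B C := by
    rw [zr_closed f (l ++ [B]) C hC', zr_open l B C, ht]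
    simp
  have e2 : ∀ x : E, ((l.zip (l.tail ++ [x])).map fun e => crS f.1 f.2 e.1 e.2).sum =
      ((s.zip (s ++ [A]).tail).map fun e => crS f.1 f.2 e.1 e.2).sum + crS f.1 f.2 A x := by
    intro x
    rw [hs, zr_open s A x]
    simp
  have e3 := crS_rev f.1 f.2 A C
  rw [e1, zr_closed f l C hC, e2 B, e2 C, zr_tri]
  linarith

/-- lkO Q (l ++ [B]) = lkO Q l + lkO Q [A, B, C] for A = last, C = head (crS_rev). -/
theorem lkO_append (Q l : List E) (A B C : E) (hA : l.getLast? = some A) (hC : l.head? = some C) :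
    lkO Q (l ++ [B]) = lkO Q l + lkO Q [A, B, C] := by
  rw [zr_lkO, zr_lkO, zr_lkO, ← zr_add]
  refine congrArg List.sum (List.map_congr_left ?_)
  intro f _
  exact zr_append f l A B C hA hC

private theorem zr_ends {W : Type} {l : List W} (hn : l.Nodup) (h3 : 3 ≤ l.length) :
    ∃ A C : W, l.getLast? = some A ∧ l.head? = some C ∧ A ∈ l ∧ C ∈ l ∧ A ≠ C := by
  have hne : l ≠ [] := by
    rintro rfl
    simp at h3
  refine ⟨l.getLast hne, l.head hne, List.getLast?_eq_some_getLast hne,
    List.head?_eq_some_head hne, List.getLast_mem hne, List.head_mem hne, ?_⟩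
  intro h
  rw [List.getLast_eq_getElem, List.head_eq_getElem] at h
  have := (hn.getElem_inj_iff).1 h
  omega

private theorem zr_one {W : Type} {F : W → E} {Q : List E} (hGP : GP F) (hT : GenT F Q)
    {a b c : W} (hab : a ≠ b) (hac : a ≠ c) (hbc : b ≠ c)
    (hQ : Disjoint (convexHull ℝ {F a, F b, F c}) (polyL Q)) : lkO Q [F a, F b, F c] = 0 :=
  lkO_tri (hGP.1 a b c hab hac hbc) hQ
    (fun x hx => ⟨hT.1 x hx a b hab, hT.1 x hx b c hbc, hT.1 x hx c a hac.symm⟩)
    (fun f hf => ⟨hT.2 f hf a, hT.2 f hf b, hT.2 f hf c⟩)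

/-- Induction over the chain. -/
theorem lkO_chain {W : Type} {F : W → E} {Q : List E} {l : List W} (hGP : GP F) (hT : GenT F Q)
    (h : Chain F (polyL Q) l) : l.Nodup ∧ 3 ≤ l.length ∧ lkO Q (l.map F) = 0 := by
  induction h with
  | base a b c h hQ =>
    refine ⟨h, le_refl _, ?_⟩
    have h1 : a ≠ b ∧ a ≠ c ∧ b ≠ c := by
      simp only [List.nodup_cons, List.mem_cons, List.not_mem_nil, or_false, not_or] at h
      exact ⟨h.1.1, h.1.2, h.2.1⟩
    exact zr_one hGP hT h1.1 h1.2.1 h1.2.2 hQ
  | rot l k h ih =>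
    refine ⟨List.nodup_rotate.2 ih.1, ?_, ?_⟩
    · rw [List.length_rotate]
      exact ih.2.1
    · rw [List.map_rotate, lkO_rot]
      exact ih.2.2
  | del l b h hb ht hQ ih =>
    obtain ⟨A, C, hA, hC, hAl, hCl, hAC⟩ := zr_ends ih.1 ih.2.1
    refine ⟨?_, ?_, ?_⟩
    · rw [List.nodup_append]
      refine ⟨ih.1, List.nodup_singleton b, ?_⟩
      intro x hx y hy hxy
      simp only [List.mem_singleton] at hy
      exact hb (hy ▸ hxy ▸ hx)
    · rw [List.length_append]
      have := ih.2.1
      omega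
    · rw [List.map_append, List.map_singleton,
        lkO_append Q (l.map F) (F A) (F b) (F C) (by rw [List.getLast?_map, hA]; rfl)
          (by rw [List.head?_map, hC]; rfl), ih.2.2,
        zr_one hGP hT (a := A) (b := b) (c := C) (fun e : A = b => hb (e ▸ hAl)) hAC
          (fun e : b = C => hb (e.symm ▸ hCl)) (hQ A C hA hC), add_zero]
  | add l b h3 h ht hQ ih =>
    have hn : l.Nodup := (List.nodup_append.1 ih.1).1
    have hb : b ∉ l := by
      intro hb
      exact (List.nodup_append.1 ih.1).2.2 b hb b (List.mem_singleton.2 rfl) rfl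
    obtain ⟨A, C, hA, hC, hAl, hCl, hAC⟩ := zr_ends hn h3
    refine ⟨hn, h3, ?_⟩
    have h4 := ih.2.2
    rw [List.map_append, List.map_singleton,
      lkO_append Q (l.map F) (F A) (F b) (F C) (by rw [List.getLast?_map, hA]; rfl)
        (by rw [List.head?_map, hC]; rfl),
      zr_one hGP hT (a := A) (b := b) (c := C) (fun e : A = b => hb (e ▸ hAl)) hAC
          (fun e : b = C => hb (e.symm ▸ hCl)) (hQ A C hA hC), add_zero]
      at h4
    exact h4

end Pool.Agent.Lib.MP_ca0971_gt.OT
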